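import Pool.Agent.SymBlk.Union
import Pool.Agent.SymCirc.FinA

/-!
# Circuits can be made symmetric on small blocks of variables
-/

set_option autoImplicit false

namespace Pool.Agent.SymBlk

open Finset Pool.Agent.SymCirc

/-- The indicator of the first `j` coordinates. -/
def firstOnes (a j : ℕ) : Fin a → Bool := fun i => decide (i.val < j)

theorem card_firstOnes {a j : ℕ} (hj : j ≤ a) :
    (univ.filter fun i => firstOnes a j i = true).card = j := by
  have h1 : (univ.filter fun i : Fin a => firstOnes a j i = true).map Fin.valEmbedding =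
      Finset.range j := by
    ext x
    simp only [mem_map, mem_filter, mem_univ, true_and, firstOnes, decide_eq_true_eq,
      Fin.valEmbedding_apply, mem_range]
    constructor
    · rintro ⟨i, hi, rfl⟩
      exact hi
    · intro hx
      exact ⟨⟨x, by omega⟩, hx, rfl⟩
  rw [← card_map Fin.valEmbedding, h1, card_range]

theorem ext_self {n a : ℕ} {e : Fin a → Fin n} (he : Function.Injective e) (x : Fin n → Bool) :
    ext e x (fun i => x (e i)) = x := by
  funext j
  by_cases hj : ∃ i, e i = j
  · obtain ⟨i, rfl⟩ := hj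
    rw [ext_apply he]
  · exact ext_not x _ fun i hi => hj ⟨i, hi⟩

open Classical in
/-- The substitution of the constants `y` for the variables in `A`. -/
noncomputable def killA {n : ℕ} (A : Finset (Fin n)) (y : Fin A.card → Bool) :
    Fin n → Fin n ⊕ Bool :=
  fun v => if v ∈ A then Sum.inr (ext (emb A) (fun _ => false) y v) else Sum.inl v

theorem killA_elim {n : ℕ} (A : Finset (Fin n)) (y : Fin A.card → Bool) (x : Fin n → Bool) :
    (fun v => Sum.elim x id (killA A y v)) = ext (emb A) x y := by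
  funext v
  by_cases hv : v ∈ A
  · obtain ⟨i, rfl⟩ := exists_emb hv
    have : killA A y (emb A i) = Sum.inr (ext (emb A) (fun _ => false) y (emb A i)) := if_pos hv
    rw [this, Sum.elim_inr, id, ext_apply (emb_inj A), ext_apply (emb_inj A)]
  · have : killA A y v = Sum.inl v := if_neg hv
    rw [this, Sum.elim_inl, ext_not x y (emb_ne.2 hv)]

theorem killA_perm {n : ℕ} (A : Finset (Fin n)) (y : Fin A.card → Bool) {ρ : Equiv.Perm (Fin n)}
    (hρ : ∀ j, j ∉ A → ρ j = j) (v : Fin n) :
    killA A y ((1 : Equiv.Perm (Fin n)) v) = Sum.map ρ id (killA A y v) := by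
  rw [Equiv.Perm.one_apply]
  by_cases hv : v ∈ A
  · have : killA A y v = Sum.inr (ext (emb A) (fun _ => false) y v) := if_pos hv
    rw [this]
    rfl
  · have : killA A y v = Sum.inl v := if_neg hv
    rw [this, Sum.map_inl, hρ v hv]

theorem add_le_choose {k : ℕ} (hk : 1 ≤ k) : ∀ a : ℕ, 1 ≤ a → a + k ≤ (a + k).choose k := by
  intro a
  induction a with
  | zero => intro h; omega
  | succ a ih =>
    intro _
    rcases Nat.eq_zero_or_pos a with h | h
    · subst h
      rw [zero_add, add_comm, Nat.choose_succ_self_right]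
    · obtain ⟨l, rfl⟩ : ∃ l, k = l + 1 := ⟨k - 1, by omega⟩
      have h1 := ih h
      have h2 : 0 < (a + (l + 1)).choose l := Nat.choose_pos (by omega)
      have h3 : a + 1 + (l + 1) = (a + (l + 1)) + 1 := by ring
      rw [h3, Nat.choose_succ_succ']
      omega

theorem size_aux {a k s K : ℕ} (ha : 1 ≤ a) (hk : 2 ≤ k) (hs : 1 ≤ s) :
    (a + 1) * ((a + k).choose k ^ K + s) + (a + 1 + 1) ≤ s * (a + k).choose k ^ (K + 2) := by
  have h1 : a + k ≤ (a + k).choose k := add_le_choose (by omega) a ha
  set c := (a + k).choose k with hc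
  have hP : 1 ≤ c ^ K := Nat.one_le_pow _ _ (by omega)
  have h2 : (a + 1) * (c ^ K + s) + (a + 1 + 1) ≤ c * (c ^ K + s + 1) := by
    have h3 : (a + 1) * (c ^ K + s) ≤ c * (c ^ K + s) := Nat.mul_le_mul_right _ (by omega)
    rw [mul_add c, mul_one]
    omega
  have h4 : c ^ K + s + 1 ≤ s * (c ^ K + 2) := by
    obtain ⟨s', rfl⟩ : ∃ s', s = s' + 1 := ⟨s - 1, by omega⟩
    have : (s' + 1) * (c ^ K + 2) = s' * c ^ K + 2 * s' + c ^ K + 2 := by ring
    rw [this]
    have : 0 ≤ s' * c ^ K := Nat.zero_le _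
    omega
  have h5 : c ^ K + 2 ≤ c ^ K * c := by
    have : c ^ K * 3 ≤ c ^ K * c := Nat.mul_le_mul_left _ (by omega)
    omega
  calc (a + 1) * (c ^ K + s) + (a + 1 + 1) ≤ c * (c ^ K + s + 1) := h2
    _ ≤ c * (s * (c ^ K + 2)) := Nat.mul_le_mul_left _ h4
    _ ≤ c * (s * (c ^ K * c)) := Nat.mul_le_mul_left _ (Nat.mul_le_mul_left _ h5)
    _ = s * c ^ (K + 2) := by ring

theorem card_rest {n : ℕ} (A : Finset (Fin n)) (x : Fin n → Bool) :
    (univ.filter fun i => (∀ l, emb A l ≠ i) ∧ x i = true).card + A.card ≤ n := by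
  classical
  have h : (univ.filter fun i => (∀ l, emb A l ≠ i) ∧ x i = true).card ≤ (Aᶜ).card := by
    refine card_le_card fun i hi => ?_
    rw [mem_compl]
    exact emb_ne.1 (mem_filter.1 hi).2.1
  rw [card_compl, Fintype.card_fin] at h
  have h2 : A.card ≤ n := by
    have := card_le_univ A
    rwa [Fintype.card_fin] at this
  omega

/-- If `F` is regular on the block `A` with parameter `k`, for every number `v` of ones outside
`A`, then every circuit for `F` can be made symmetric on `A` if its size is multiplied by a power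
of `choose (A.card + k) k`. -/
theorem thm_FreeR (hUp : SymC.St_Up) (m : ℕ) (hm : 2 ≤ m) : ∃ K : ℕ,
    ∀ (n k T d : ℕ) (F : ℕ → Prop) (A : Finset (Fin n)), 2 ≤ k → 1 ≤ T → 1 ≤ A.card →
    (∀ v, v + A.card ≤ n → Regular m A.card k T (fun w => F (w + v))) →
    ∀ (ι G : Type) [Fintype ι] [Fintype G]
    (C : Circuit n ι G) (g₀ : G), C.Modular m T → C.Computes g₀ F → (∀ g, C.level g < d) →
    ∃ (ι' G' : Type) (_ : Fintype ι') (_ : Fintype G') (C' : Circuit n ι' G') (g₀' : G'),
      C'.Modular m T ∧ (∀ g, C'.level g < max d 5 + 2) ∧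
      Fintype.card G' ≤ Fintype.card G * (A.card + k).choose k ^ K ∧ C'.Computes g₀' F ∧
      ∀ ρ : Equiv.Perm (Fin n), (∀ i, i ∉ A → ρ i = i) →
        ∃ σ τ, C'.IsAut ρ σ τ ∧ τ g₀' = g₀' := by
  classical
  obtain ⟨K, hK⟩ := FinA_main hUp m hm
  refine ⟨K + 2, fun n k T d F A hk hT hA1 hA ι G _ _ C g₀ hmod hcomp hd => ?_⟩
  have hreg : ∀ j : ℕ, Regular m A.card k T
      (fun w => ∀ v, v + A.card ≤ n → (F (w + v) ↔ F (j + v))) := by
    intro j w hw1 hw2
    refine forall_congr' fun v => imp_congr_right fun hv => ?_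
    have h : F (w + v) ↔ F (w + period m k + v) := hA v hv w hw1 hw2
    rw [h]
  choose H hHf D gD hD1 hD2 hD3 hD4 hD5 hD6 using fun j : Fin (A.card + 1) =>
    (hK A.card k T (fun w => ∀ v, v + A.card ≤ n → (F (w + v) ↔ F ((j : ℕ) + v))) hA1 hk hT).1
      (hreg j)
  let J := Fin (A.card + 1)
  let I' : J × Bool → Type := fun t => match t with
    | (_, false) => ι
    | (_, true) => Fin A.card
  let G' : J × Bool → Type := fun t => match t with
    | (_, false) => G
    | (j, true) => H j
  let hI' : ∀ t, Fintype (I' t) := fun t => match t with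
    | (_, false) => inferInstanceAs (Fintype ι)
    | (_, true) => inferInstanceAs (Fintype (Fin A.card))
  let hG' : ∀ t, Fintype (G' t) := fun t => match t with
    | (_, false) => inferInstanceAs (Fintype G)
    | (j, true) => hHf j
  let E : ∀ t, Circuit n (I' t) (G' t) := fun t => match t with
    | (j, false) => subst C (killA A (firstOnes A.card j))
    | (j, true) => subst (D j) (fun i => Sum.inl (emb A i))
  let g' : ∀ t, G' t := fun t => match t with
    | (_, false) => g₀
    | (j, true) => gD j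
  have hL : ∀ t g, (E t).level g < max d 5 := by
    rintro ⟨j, _ | _⟩ g
    · exact lt_of_lt_of_le (hd g) (le_max_left _ _)
    · exact lt_of_lt_of_le (hD3 j g) (le_max_right _ _)
  refine ⟨Σ t, I' t, (Σ t, G' t) ⊕ (J ⊕ Unit), inferInstance, inferInstance,
    union E g' (max d 5) hL, Sum.inr (Sum.inr ()), ?_, ?_, ?_, ?_, ?_⟩
  · refine union_modular E g' _ hL hT ?_
    rintro ⟨j, _ | _⟩
    · exact hmod
    · exact hD2 j
  · rintro (⟨t, g⟩ | j | u)
    · exact lt_of_lt_of_le (hL t g) (by omega)
    · show max d 5 < max d 5 + 2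
      omega
    · show max d 5 + 1 < max d 5 + 2
      omega
  · have h1 : Fintype.card ((Σ t, G' t) ⊕ (J ⊕ Unit)) =
        (∑ j : J, (Fintype.card (H j) + Fintype.card G)) + (A.card + 1 + 1) := by
      rw [Fintype.card_sum, Fintype.card_sigma, Fintype.sum_prod_type, Fintype.card_sum,
        Fintype.card_unit, Fintype.card_fin]
      congr 1
    rw [h1]
    refine le_trans ?_ (size_aux hA1 hk (Fintype.card_pos_iff.2 ⟨g₀⟩))
    refine Nat.add_le_add_right ?_ _
    calc (∑ j : J, (Fintype.card (H j) + Fintype.card G))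
        ≤ ∑ _j : J, ((A.card + k).choose k ^ K + Fintype.card G) :=
          Finset.sum_le_sum fun j _ => Nat.add_le_add_right (hD5 j) _
      _ = (A.card + 1) * ((A.card + k).choose k ^ K + Fintype.card G) := by
          rw [Finset.sum_const, card_univ, Fintype.card_fin, smul_eq_mul]
  · intro x
    have hCx : ∀ j : J, ∃ v, C.IsRun (ext (emb A) x (firstOnes A.card j)) v ∧
        (v g₀ = true ↔ F (j + (univ.filter fun i => (∀ l, emb A l ≠ i) ∧ x i = true).card)) := by
      intro j
      obtain ⟨v, hv1, hv2⟩ := hcomp (ext (emb A) x (firstOnes A.card j))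
      refine ⟨v, hv1, ?_⟩
      rw [hv2, ext_card (emb_inj A), card_firstOnes (Nat.lt_succ_iff.1 j.2)]
    choose vC hvC1 hvC2 using hCx
    have hDx := fun j : J => hD6 j (fun i => x (emb A i))
    choose vD hvD1 hvD2 using hDx
    let v : ∀ t, G' t → Bool := fun t => match t with
      | (j, false) => vC j
      | (j, true) => vD j
    have hv : ∀ t, (E t).IsRun x (v t) := by
      rintro ⟨j, _ | _⟩
      · refine (subst_isRun C _ x _).2 ?_
        rw [killA_elim]
        exact hvC1 j
      · exact (subst_isRun (D j) _ x _).2 (hvD1 j)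
    obtain ⟨V, hV1, hV2⟩ := union_run E g' (max d 5) hL x v hv
    refine ⟨V, hV1, hV2.trans ?_⟩
    have htot := ext_card (emb_inj A) x (fun i => x (emb A i))
    rw [ext_self (emb_inj A)] at htot
    rw [htot]
    constructor
    · rintro ⟨j, h1, h2⟩
      have h3 := (hvC2 j).1 h1
      have h4 := (hvD2 j).1 h2
      exact (h4 _ (card_rest A x)).2 h3
    · intro h
      have hle : (univ.filter fun i : Fin A.card => x (emb A i) = true).card < A.card + 1 := by
        refine Nat.lt_succ_of_le ((card_le_univ _).trans ?_)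
        rw [Fintype.card_fin]
      refine ⟨⟨_, hle⟩, (hvC2 ⟨_, hle⟩).2 h, (hvD2 ⟨_, hle⟩).2 fun v _ => Iff.rfl⟩
  · intro ρ hρ
    obtain ⟨ρ', hρ'⟩ := exists_perm hρ
    choose σD τD hσ1 hσ2 using fun j : J => hD4 j ρ'
    let σ : ∀ t, Equiv.Perm (I' t) := fun t => match t with
      | (_, false) => (1 : Equiv.Perm ι)
      | (j, true) => σD j
    let τ : ∀ t, Equiv.Perm (G' t) := fun t => match t with
      | (_, false) => (1 : Equiv.Perm G)
      | (j, true) => τD j
    refine ⟨_, _, union_isAut E g' (max d 5) hL ρ σ τ ?_ ?_, rfl⟩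
    · rintro ⟨j, _ | _⟩
      · exact subst_isAut (isAut_one (C := C)) (killA_perm A _ hρ)
      · refine subst_isAut (hσ1 j) fun i => ?_
        rw [hρ' i]
        rfl
    · rintro ⟨j, _ | _⟩
      · rfl
      · exact hσ2 j

/-- Every circuit for a symmetric function can be made symmetric on a given block `A` of at most
`k ^ r` variables, where `r` is the number of primes dividing the modulus, if its size is
multiplied by a power of `choose (A.card + k) k`. -/
theorem thm_Free (hUp : SymC.St_Up) (m : ℕ) (hm : 2 ≤ m) : ∃ K : ℕ,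
    ∀ (n k T d : ℕ) (F : ℕ → Prop) (A : Finset (Fin n)), 2 ≤ k → 1 ≤ T → 1 ≤ A.card →
    A.card ≤ k ^ m.primeFactors.card → ∀ (ι G : Type) [Fintype ι] [Fintype G]
    (C : Circuit n ι G) (g₀ : G), C.Modular m T → C.Computes g₀ F → (∀ g, C.level g < d) →
    ∃ (ι' G' : Type) (_ : Fintype ι') (_ : Fintype G') (C' : Circuit n ι' G') (g₀' : G'),
      C'.Modular m T ∧ (∀ g, C'.level g < max d 5 + 2) ∧
      Fintype.card G' ≤ Fintype.card G * (A.card + k).choose k ^ K ∧ C'.Computes g₀' F ∧
      ∀ ρ : Equiv.Perm (Fin n), (∀ i, i ∉ A → ρ i = i) →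
        ∃ σ τ, C'.IsAut ρ σ τ ∧ τ g₀' = g₀' := by
  obtain ⟨K, hK⟩ := thm_FreeR hUp m hm
  refine ⟨K, fun n k T d F A hk hT hA1 hA => hK n k T d F A hk hT hA1 fun v _ w hw1 hw2 => ?_⟩
  have h4 : k ^ m.primeFactors.card < period m k := Pool.Agent.Helper18.pow_lt_period hm
  omega

end Pool.Agent.SymBlk
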