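import Pool.Agent.SymCirc.Defs

/-!
# Restriction of a circuit to a set of variables
-/

set_option autoImplicit false

namespace Pool.Agent.SymBlk

open Finset Pool.Agent.SymCirc

variable {n a : ℕ} {ι G : Type}

open Classical in
/-- The input in which the variables in the range of `e` have the values `x` and the others the
values `b`. -/
noncomputable def ext (e : Fin a → Fin n) (b : Fin n → Bool) (x : Fin a → Bool) : Fin n → Bool :=
  fun j => if h : ∃ i, e i = j then x h.choose else b j

theorem ext_apply {e : Fin a → Fin n} (he : Function.Injective e) (b : Fin n → Bool)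
    (x : Fin a → Bool) (i : Fin a) : ext e b x (e i) = x i := by
  have h : ∃ i', e i' = e i := ⟨i, rfl⟩
  unfold ext
  rw [dif_pos h]
  exact congrArg x (he h.choose_spec)

theorem ext_not {e : Fin a → Fin n} (b : Fin n → Bool)
    (x : Fin a → Bool) {j : Fin n} (hj : ∀ i, e i ≠ j) : ext e b x j = b j := by
  unfold ext
  rw [dif_neg]
  rintro ⟨i, hi⟩
  exact hj i hi

/-- The number of ones. -/
theorem ext_card {e : Fin a → Fin n} (he : Function.Injective e) (b : Fin n → Bool)
    (x : Fin a → Bool) :
    (univ.filter fun j => ext e b x j = true).card =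
      (univ.filter fun i => x i = true).card +
        (univ.filter fun j => (∀ i, e i ≠ j) ∧ b j = true).card := by
  classical
  have h1 : (univ.filter fun j => ext e b x j = true) =
      ((univ.filter fun i => x i = true).map ⟨e, he⟩) ∪
        (univ.filter fun j => (∀ i, e i ≠ j) ∧ b j = true) := by
    ext j
    simp only [mem_filter, mem_univ, true_and, mem_union, mem_map, Function.Embedding.coeFn_mk]
    by_cases hj : ∃ i, e i = j
    · obtain ⟨i, rfl⟩ := hj
      rw [ext_apply he]
      constructor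
      · intro h
        exact Or.inl ⟨i, h, rfl⟩
      · rintro (⟨i', h, hi'⟩ | ⟨h, -⟩)
        · rw [← he hi']
          exact h
        · exact absurd rfl (h i)
    · have hj' : ∀ i, e i ≠ j := fun i hi => hj ⟨i, hi⟩
      rw [ext_not b x hj']
      constructor
      · intro h
        exact Or.inr ⟨hj', h⟩
      · rintro (⟨i', -, hi'⟩ | ⟨-, h⟩)
        · exact absurd hi' (hj' i')
        · exact h
  rw [h1, card_union_of_disjoint, card_map]
  rw [disjoint_left]
  intro j hj1 hj2
  obtain ⟨i, -, hi⟩ := mem_map.1 hj1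
  exact (mem_filter.1 hj2).2.1 i hi

open Classical in
/-- The new label. -/
noncomputable def relabel (e : Fin a → Fin n) (b : Fin n → Bool) : Fin n ⊕ Bool → Fin a ⊕ Bool :=
  Sum.elim (fun j => if h : ∃ i, e i = j then Sum.inl h.choose else Sum.inr (b j)) Sum.inr

theorem relabel_apply {e : Fin a → Fin n} (he : Function.Injective e) (b : Fin n → Bool)
    (i : Fin a) : relabel e b (Sum.inl (e i)) = Sum.inl i := by
  have h : ∃ i', e i' = e i := ⟨i, rfl⟩
  unfold relabel
  rw [Sum.elim_inl, dif_pos h]
  exact congrArg Sum.inl (he h.choose_spec)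

theorem relabel_not {e : Fin a → Fin n} (b : Fin n → Bool) {j : Fin n} (hj : ∀ i, e i ≠ j) :
    relabel e b (Sum.inl j) = Sum.inr (b j) := by
  unfold relabel
  rw [Sum.elim_inl, dif_neg]
  rintro ⟨i, hi⟩
  exact hj i hi

theorem relabel_const (e : Fin a → Fin n) (b : Fin n → Bool) (c : Bool) :
    relabel e b (Sum.inr c) = Sum.inr c := rfl

theorem elim_relabel {e : Fin a → Fin n} (he : Function.Injective e) (b : Fin n → Bool)
    (x : Fin a → Bool) (l : Fin n ⊕ Bool) :
    Sum.elim x id (relabel e b l) = Sum.elim (ext e b x) id l := by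
  rcases l with j | c
  · by_cases hj : ∃ i, e i = j
    · obtain ⟨i, rfl⟩ := hj
      rw [relabel_apply he, Sum.elim_inl, Sum.elim_inl, ext_apply he]
    · have hj' : ∀ i, e i ≠ j := fun i hi => hj ⟨i, hi⟩
      rw [relabel_not b hj', Sum.elim_inr, Sum.elim_inl, ext_not b x hj', id]
  · rfl

/-- The circuit in which the variables outside the range of `e` are replaced by the
constants `b`. -/
noncomputable def restr (C : Circuit n ι G) (e : Fin a → Fin n) (b : Fin n → Bool) :
    Circuit a ι G where
  label i := relabel e b (C.label i)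
  wires := C.wires
  acc := C.acc
  level := C.level
  level_lt := C.level_lt

section

variable [Fintype ι] [Fintype G]

theorem restr_fanIn (C : Circuit n ι G) (e : Fin a → Fin n) (b : Fin n → Bool) (g : G) :
    (restr C e b).fanIn g = C.fanIn g := rfl

theorem restr_modular {C : Circuit n ι G} {m T : ℕ} (h : C.Modular m T) (e : Fin a → Fin n)
    (b : Fin n → Bool) : (restr C e b).Modular m T := h

theorem restr_count (C : Circuit n ι G) {e : Fin a → Fin n} (he : Function.Injective e)
    (b : Fin n → Bool) (x : Fin a → Bool) (v : G → Bool) (g : G) :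
    (restr C e b).count x v g = C.count (ext e b x) v g := by
  unfold Circuit.count
  refine Finset.sum_congr rfl fun l _ => ?_
  have h : Sum.elim (fun i => Sum.elim x id ((restr C e b).label i)) v l =
      Sum.elim (fun i => Sum.elim (ext e b x) id (C.label i)) v l := by
    rcases l with i | h
    · exact elim_relabel he b x (C.label i)
    · rfl
  rw [h]
  rfl

theorem restr_isRun (C : Circuit n ι G) {e : Fin a → Fin n} (he : Function.Injective e)
    (b : Fin n → Bool) (x : Fin a → Bool) (v : G → Bool) :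
    (restr C e b).IsRun x v ↔ C.IsRun (ext e b x) v := by
  unfold Circuit.IsRun
  refine forall_congr' fun g => ?_
  rw [restr_count C he]
  rfl

theorem restr_computes {C : Circuit n ι G} {g₀ : G} {F : ℕ → Prop} (h : C.Computes g₀ F)
    {e : Fin a → Fin n} (he : Function.Injective e) (b : Fin n → Bool) :
    (restr C e b).Computes g₀
      (fun w => F (w + (univ.filter fun j => (∀ i, e i ≠ j) ∧ b j = true).card)) := by
  intro x
  obtain ⟨v, hv, hF⟩ := h (ext e b x)
  refine ⟨v, (restr_isRun C he b x v).2 hv, ?_⟩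
  rw [hF, ext_card he]

end

/-- A symmetry of the circuit that fixes the variables outside the range of `e` gives a symmetry
of the restriction. -/
theorem restr_isAut {C : Circuit n ι G} {e : Fin a → Fin n} (he : Function.Injective e)
    (b : Fin n → Bool) {ρ : Equiv.Perm (Fin n)} {σ : Equiv.Perm ι} {τ : Equiv.Perm G}
    (h : C.IsAut ρ σ τ) (hρ : ∀ j, (∀ i, e i ≠ j) → ρ j = j) {ρ' : Equiv.Perm (Fin a)}
    (hρ' : ∀ i, e (ρ' i) = ρ (e i)) : (restr C e b).IsAut ρ' σ τ := by
  obtain ⟨h1, h2, h3⟩ := h
  refine ⟨fun i => ?_, h2, h3⟩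
  show relabel e b (C.label (σ i)) = Sum.map ρ' id (relabel e b (C.label i))
  rw [h1 i]
  rcases C.label i with j | c
  · by_cases hj : ∃ i, e i = j
    · obtain ⟨i, rfl⟩ := hj
      rw [Sum.map_inl, ← hρ', relabel_apply he, relabel_apply he, Sum.map_inl]
    · have hj' : ∀ i, e i ≠ j := fun i hi => hj ⟨i, hi⟩
      rw [Sum.map_inl, hρ j hj', relabel_not b hj', Sum.map_inr, id]
  · rfl

/-- The embedding of `Fin A.card`. -/
noncomputable def emb (A : Finset (Fin n)) : Fin A.card → Fin n := A.orderEmbOfFin rfl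

theorem emb_inj (A : Finset (Fin n)) : Function.Injective (emb A) :=
  (A.orderEmbOfFin rfl).injective

theorem emb_mem (A : Finset (Fin n)) (i : Fin A.card) : emb A i ∈ A :=
  A.orderEmbOfFin_mem rfl i

theorem exists_emb {A : Finset (Fin n)} {j : Fin n} (hj : j ∈ A) : ∃ i, emb A i = j := by
  have h : j ∈ Set.range (A.orderEmbOfFin rfl) := by
    rw [Finset.range_orderEmbOfFin]
    exact hj
  exact h

theorem emb_ne {A : Finset (Fin n)} {j : Fin n} : (∀ i, emb A i ≠ j) ↔ j ∉ A := by
  constructor
  · intro h hj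
    obtain ⟨i, hi⟩ := exists_emb hj
    exact h i hi
  · rintro h i rfl
    exact h (emb_mem A i)

/-- The induced permutation. -/
theorem exists_perm {A : Finset (Fin n)} {ρ : Equiv.Perm (Fin n)} (hρ : ∀ j, j ∉ A → ρ j = j) :
    ∃ ρ' : Equiv.Perm (Fin A.card), ∀ i, emb A (ρ' i) = ρ (emb A i) := by
  have hmem : ∀ (ρ : Equiv.Perm (Fin n)), (∀ j, j ∉ A → ρ j = j) → ∀ i : Fin A.card,
      ∃ i', emb A i' = ρ (emb A i) := by
    intro ρ hρ i
    refine exists_emb ?_
    by_contra h
    have h1 := hρ _ h
    have h2 := ρ.injective h1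
    refine h ?_
    rw [h2]
    exact emb_mem A i
  have hsymm : ∀ j, j ∉ A → ρ.symm j = j := by
    intro j hj
    rw [Equiv.symm_apply_eq]
    exact (hρ j hj).symm
  choose f hf using hmem ρ hρ
  choose f' hf' using hmem ρ.symm hsymm
  refine ⟨⟨f, f', fun i => ?_, fun i => ?_⟩, hf⟩
  · apply emb_inj A
    rw [hf', hf, Equiv.symm_apply_apply]
  · apply emb_inj A
    rw [hf, hf', Equiv.apply_symm_apply]

/-- The number of symmetries that fix the variables outside `A` is at most the number of
symmetries of the restriction. -/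
theorem card_symm_le (C : Circuit n ι G) (A : Finset (Fin n)) (b : Fin n → Bool) :
    Nat.card {ρ : Equiv.Perm (Fin n) // C.IsSymmetry ρ ∧ ∀ i, i ∉ A → ρ i = i} ≤
      Nat.card {ρ' : Equiv.Perm (Fin A.card) // (restr C (emb A) b).IsSymmetry ρ'} := by
  classical
  choose f hf using fun ρ : {ρ : Equiv.Perm (Fin n) // C.IsSymmetry ρ ∧ ∀ i, i ∉ A → ρ i = i} =>
    exists_perm ρ.2.2
  have hsym : ∀ ρ, (restr C (emb A) b).IsSymmetry (f ρ) := by
    rintro ⟨ρ, ⟨σ, τ, h⟩, hρ⟩
    exact ⟨σ, τ, restr_isAut (emb_inj A) b h (fun j hj => hρ j (emb_ne.1 hj)) (hf _)⟩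
  refine Nat.card_le_card_of_injective (fun ρ => ⟨f ρ, hsym ρ⟩) ?_
  intro ρ₁ ρ₂ h
  have h' : f ρ₁ = f ρ₂ := congrArg Subtype.val h
  apply Subtype.ext
  apply Equiv.ext
  intro j
  by_cases hj : j ∈ A
  · obtain ⟨i, rfl⟩ := exists_emb hj
    rw [← hf ρ₁ i, ← hf ρ₂ i, h']
  · rw [ρ₁.2.2 j hj, ρ₂.2.2 j hj]

/-- Constants with a given number of ones outside `A`. -/
theorem exists_const (A : Finset (Fin n)) {v : ℕ} (hv : v + A.card ≤ n) :
    ∃ b : Fin n → Bool,
      (univ.filter fun j => (∀ i, emb A i ≠ j) ∧ b j = true).card = v := by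
  classical
  have hc : v ≤ (Aᶜ).card := by
    rw [card_compl, Fintype.card_fin]
    omega
  obtain ⟨B, hB, hBv⟩ := exists_subset_card_eq hc
  refine ⟨fun j => decide (j ∈ B), ?_⟩
  rw [← hBv]
  congr 1
  ext j
  simp only [mem_filter, mem_univ, true_and, decide_eq_true_eq, emb_ne]
  constructor
  · exact fun h => h.2
  · exact fun h => ⟨mem_compl.1 (hB h), h⟩

end Pool.Agent.SymBlk
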