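import Pool.Agent.SymBlk.Restr

/-!
# Substitution in circuits, and disjunctions of conjunctions of circuits
-/

set_option autoImplicit false

namespace Pool.Agent.SymBlk

open Finset Pool.Agent.SymCirc

/-- Substitution of variables and constants for the variables. -/
def subst {n n' : ℕ} {ι G : Type} (C : Circuit n ι G) (f : Fin n → Fin n' ⊕ Bool) :
    Circuit n' ι G where
  label i := Sum.elim f Sum.inr (C.label i)
  wires := C.wires
  acc := C.acc
  level := C.level
  level_lt := C.level_lt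

section subst

variable {n n' : ℕ} {ι G : Type}

theorem subst_isAut {C : Circuit n ι G} {f : Fin n → Fin n' ⊕ Bool} {ρ' : Equiv.Perm (Fin n)}
    {σ : Equiv.Perm ι} {τ : Equiv.Perm G} (h : C.IsAut ρ' σ τ) {ρ : Equiv.Perm (Fin n')}
    (hf : ∀ v, f (ρ' v) = Sum.map ρ id (f v)) : (subst C f).IsAut ρ σ τ := by
  obtain ⟨h1, h2, h3⟩ := h
  refine ⟨fun i => ?_, h2, h3⟩
  show Sum.elim f Sum.inr (C.label (σ i)) = Sum.map ρ id (Sum.elim f Sum.inr (C.label i))
  rw [h1 i]
  rcases C.label i with v | c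
  · exact hf v
  · rfl

variable [Fintype ι] [Fintype G]

theorem subst_modular {C : Circuit n ι G} {m T : ℕ} (h : C.Modular m T)
    (f : Fin n → Fin n' ⊕ Bool) : (subst C f).Modular m T := h

theorem subst_isRun (C : Circuit n ι G) (f : Fin n → Fin n' ⊕ Bool) (x : Fin n' → Bool)
    (v : G → Bool) : (subst C f).IsRun x v ↔ C.IsRun (fun j => Sum.elim x id (f j)) v := by
  unfold Circuit.IsRun
  refine forall_congr' fun g => ?_
  have h : (subst C f).count x v g = C.count (fun j => Sum.elim x id (f j)) v g := by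
    unfold Circuit.count
    refine Finset.sum_congr rfl fun l _ => ?_
    have h : Sum.elim (fun i => Sum.elim x id ((subst C f).label i)) v l =
        Sum.elim (fun i => Sum.elim (fun j => Sum.elim x id (f j)) id (C.label i)) v l := by
      rcases l with i | h
      · show Sum.elim x id (Sum.elim f Sum.inr (C.label i)) = _
        rw [Sum.elim_inl]
        rcases C.label i with v | c
        · rfl
        · rfl
      · rfl
    rw [h]
    rfl
  rw [h]
  rfl

end subst

section union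

variable {n : ℕ} {J : Type} {I G : J × Bool → Type}

open Classical in
/-- The wires of the disjunction over `j` of the conjunctions of the gates `g₀ (j, false)` and
`g₀ (j, true)`. -/
noncomputable def uWires (E : ∀ t, Circuit n (I t) (G t)) (g₀ : ∀ t, G t) :
    (Σ t, G t) ⊕ (J ⊕ Unit) → (Σ t, I t) ⊕ ((Σ t, G t) ⊕ (J ⊕ Unit)) → ℕ
  | Sum.inl g, Sum.inl i => if h : i.1 = g.1 then (E g.1).wires g.2 (Sum.inl (h ▸ i.2)) else 0
  | Sum.inl g, Sum.inr (Sum.inl g') =>
      if h : g'.1 = g.1 then (E g.1).wires g.2 (Sum.inr (h ▸ g'.2)) else 0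
  | Sum.inl _, Sum.inr (Sum.inr _) => 0
  | Sum.inr (Sum.inl _), Sum.inl _ => 0
  | Sum.inr (Sum.inl j), Sum.inr (Sum.inl g') => if g'.1.1 = j ∧ g'.2 = g₀ g'.1 then 1 else 0
  | Sum.inr (Sum.inl _), Sum.inr (Sum.inr _) => 0
  | Sum.inr (Sum.inr _), Sum.inl _ => 0
  | Sum.inr (Sum.inr _), Sum.inr (Sum.inl _) => 0
  | Sum.inr (Sum.inr _), Sum.inr (Sum.inr (Sum.inl _)) => 1
  | Sum.inr (Sum.inr _), Sum.inr (Sum.inr (Sum.inr _)) => 0

section wires

variable (E : ∀ t, Circuit n (I t) (G t)) (g₀ : ∀ t, G t)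

theorem uWires_input (t : J × Bool) (g : G t) (i : I t) :
    uWires E g₀ (Sum.inl ⟨t, g⟩) (Sum.inl ⟨t, i⟩) = (E t).wires g (Sum.inl i) := by
  simp [uWires]

theorem uWires_input_ne {t t' : J × Bool} (h : t' ≠ t) (g : G t) (i : I t') :
    uWires E g₀ (Sum.inl ⟨t, g⟩) (Sum.inl ⟨t', i⟩) = 0 := by
  simp [uWires, h]

theorem uWires_gate (t : J × Bool) (g : G t) (i : G t) :
    uWires E g₀ (Sum.inl ⟨t, g⟩) (Sum.inr (Sum.inl ⟨t, i⟩)) = (E t).wires g (Sum.inr i) := by
  simp [uWires]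

theorem uWires_gate_ne {t t' : J × Bool} (h : t' ≠ t) (g : G t) (i : G t') :
    uWires E g₀ (Sum.inl ⟨t, g⟩) (Sum.inr (Sum.inl ⟨t', i⟩)) = 0 := by
  simp [uWires, h]

open Classical in
theorem uWires_and (j : J) (t : J × Bool) (g : G t) :
    uWires E g₀ (Sum.inr (Sum.inl j)) (Sum.inr (Sum.inl ⟨t, g⟩)) =
      if t.1 = j ∧ g = g₀ t then 1 else 0 := rfl

end wires

/-- The types of the gates. -/
def uAcc (E : ∀ t, Circuit n (I t) (G t)) : (Σ t, G t) ⊕ (J ⊕ Unit) → ℕ → Prop
  | Sum.inl g, c => (E g.1).acc g.2 c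
  | Sum.inr (Sum.inl _), c => c = 2
  | Sum.inr (Sum.inr _), c => 0 < c

/-- The levels of the gates. -/
def uLevel (E : ∀ t, Circuit n (I t) (G t)) (L : ℕ) : (Σ t, G t) ⊕ (J ⊕ Unit) → ℕ
  | Sum.inl g => (E g.1).level g.2
  | Sum.inr (Sum.inl _) => L
  | Sum.inr (Sum.inr _) => L + 1

theorem uLevel_lt (E : ∀ t, Circuit n (I t) (G t)) (g₀ : ∀ t, G t) {L : ℕ}
    (hL : ∀ t g, (E t).level g < L) (g h : (Σ t, G t) ⊕ (J ⊕ Unit))
    (hw : uWires E g₀ g (Sum.inr h) ≠ 0) : uLevel E L h < uLevel E L g := by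
  rcases g with ⟨t, g⟩ | j | u
  · rcases h with ⟨t', g'⟩ | h
    · by_cases ht : t' = t
      · subst ht
        rw [uWires_gate] at hw
        exact (E t').level_lt _ _ hw
      · rw [uWires_gate_ne E g₀ ht] at hw
        exact absurd rfl hw
    · exact absurd rfl hw
  · rcases h with ⟨t', g'⟩ | h
    · exact hL _ _
    · exact absurd rfl hw
  · rcases h with h | h | h
    · exact absurd rfl hw
    · exact Nat.lt_succ_self L
    · exact absurd rfl hw

/-- The disjunction over `j` of the conjunctions of the gates `g₀ (j, false)` and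
`g₀ (j, true)`. -/
noncomputable def union (E : ∀ t, Circuit n (I t) (G t)) (g₀ : ∀ t, G t) (L : ℕ)
    (hL : ∀ t g, (E t).level g < L) :
    Circuit n (Σ t, I t) ((Σ t, G t) ⊕ (J ⊕ Unit)) where
  label i := (E i.1).label i.2
  wires := uWires E g₀
  acc := uAcc E
  level := uLevel E L
  level_lt := uLevel_lt E g₀ hL

theorem union_isAut (E : ∀ t, Circuit n (I t) (G t)) (g₀ : ∀ t, G t) (L : ℕ)
    (hL : ∀ t g, (E t).level g < L) (ρ : Equiv.Perm (Fin n)) (σ : ∀ t, Equiv.Perm (I t))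
    (τ : ∀ t, Equiv.Perm (G t)) (h : ∀ t, (E t).IsAut ρ (σ t) (τ t)) (h₀ : ∀ t, τ t (g₀ t) = g₀ t) :
    (union E g₀ L hL).IsAut ρ (Equiv.sigmaCongrRight σ)
      (Equiv.sumCongr (Equiv.sigmaCongrRight τ) (Equiv.refl _)) := by
  refine ⟨?_, ?_, ?_⟩
  · rintro ⟨t, i⟩
    exact (h t).1 i
  · rintro (⟨t, g⟩ | j | u) (⟨t', i⟩ | ⟨t', g'⟩ | j' | u')
    · show uWires E g₀ (Sum.inl ⟨t, τ t g⟩) (Sum.inl ⟨t', σ t' i⟩) =
        uWires E g₀ (Sum.inl ⟨t, g⟩) (Sum.inl ⟨t', i⟩)
      by_cases ht : t' = t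
      · subst ht
        rw [uWires_input, uWires_input]
        exact (h t').2.1 g (Sum.inl i)
      · rw [uWires_input_ne E g₀ ht, uWires_input_ne E g₀ ht]
    · show uWires E g₀ (Sum.inl ⟨t, τ t g⟩) (Sum.inr (Sum.inl ⟨t', τ t' g'⟩)) =
        uWires E g₀ (Sum.inl ⟨t, g⟩) (Sum.inr (Sum.inl ⟨t', g'⟩))
      by_cases ht : t' = t
      · subst ht
        rw [uWires_gate, uWires_gate]
        exact (h t').2.1 g (Sum.inr g')
      · rw [uWires_gate_ne E g₀ ht, uWires_gate_ne E g₀ ht]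
    · rfl
    · rfl
    · rfl
    · show uWires E g₀ (Sum.inr (Sum.inl j)) (Sum.inr (Sum.inl ⟨t', τ t' g'⟩)) =
        uWires E g₀ (Sum.inr (Sum.inl j)) (Sum.inr (Sum.inl ⟨t', g'⟩))
      rw [uWires_and, uWires_and]
      have : (t'.1 = j ∧ τ t' g' = g₀ t') ↔ (t'.1 = j ∧ g' = g₀ t') := by
        refine and_congr_right fun _ => ⟨fun h1 => ?_, fun h1 => ?_⟩
        · rw [← h₀ t'] at h1
          exact (τ t').injective h1
        · rw [h1]
          exact h₀ t'
      by_cases h5 : t'.1 = j ∧ g' = g₀ t'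
      · rw [if_pos h5, if_pos (this.2 h5)]
      · rw [if_neg h5, if_neg (fun h6 => h5 (this.1 h6))]
    · rfl
    · rfl
    · rfl
    · rfl
    · rfl
    · rfl
  · rintro (⟨t, g⟩ | j | u)
    · exact (h t).2.2 g
    · rfl
    · rfl

variable [Fintype J] [∀ t, Fintype (I t)] [∀ t, Fintype (G t)]

/-- Sums of weights over the wires entering a gate of `E t`. -/
theorem sum_wires (E : ∀ t, Circuit n (I t) (G t)) (g₀ : ∀ t, G t) (t : J × Bool) (g : G t)
    (P : (Σ t, I t) ⊕ ((Σ t, G t) ⊕ (J ⊕ Unit)) → Prop) [DecidablePred P] :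
    (∑ a, if P a then uWires E g₀ (Sum.inl ⟨t, g⟩) a else 0) =
      ∑ a : I t ⊕ G t, if P (Sum.map (fun i => (⟨t, i⟩ : Σ t, I t))
        (fun g => (Sum.inl ⟨t, g⟩ : (Σ t, G t) ⊕ (J ⊕ Unit))) a) then (E t).wires g a else 0 := by
  classical
  rw [Fintype.sum_sum_type, Fintype.sum_sum_type, Fintype.sum_sum_type (α₁ := I t)]
  congr 1
  · rw [Fintype.sum_sigma, Fintype.sum_eq_single t]
    · refine Finset.sum_congr rfl fun i _ => ?_
      rw [uWires_input]
      rfl
    · intro t' ht'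
      refine Finset.sum_eq_zero fun i _ => ?_
      rw [uWires_input_ne E g₀ ht', ite_self]
  · have h0 : (∑ a : J ⊕ Unit, if P (Sum.inr (Sum.inr a)) then
        uWires E g₀ (Sum.inl ⟨t, g⟩) (Sum.inr (Sum.inr a)) else 0) = 0 :=
      Finset.sum_eq_zero fun a _ => ite_self 0
    rw [h0, add_zero, Fintype.sum_sigma, Fintype.sum_eq_single t]
    · refine Finset.sum_congr rfl fun i _ => ?_
      rw [uWires_gate]
      rfl
    · intro t' ht'
      refine Finset.sum_eq_zero fun i _ => ?_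
      rw [uWires_gate_ne E g₀ ht', ite_self]

/-- Sums over the wires entering the conjunction `j`. -/
theorem sum_and (E : ∀ t, Circuit n (I t) (G t)) (g₀ : ∀ t, G t) (j : J)
    (P : (Σ t, I t) ⊕ ((Σ t, G t) ⊕ (J ⊕ Unit)) → Prop) [DecidablePred P] :
    (∑ a, if P a then uWires E g₀ (Sum.inr (Sum.inl j)) a else 0) =
      (if P (Sum.inr (Sum.inl ⟨(j, false), g₀ (j, false)⟩)) then 1 else 0) +
        (if P (Sum.inr (Sum.inl ⟨(j, true), g₀ (j, true)⟩)) then 1 else 0) := by
  classical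
  rw [Fintype.sum_sum_type, Fintype.sum_sum_type]
  have h1 : (∑ a : Σ t, I t, if P (Sum.inl a) then
      uWires E g₀ (Sum.inr (Sum.inl j)) (Sum.inl a) else 0) = 0 :=
    Finset.sum_eq_zero fun a _ => ite_self 0
  have h2 : (∑ a : J ⊕ Unit, if P (Sum.inr (Sum.inr a)) then
      uWires E g₀ (Sum.inr (Sum.inl j)) (Sum.inr (Sum.inr a)) else 0) = 0 :=
    Finset.sum_eq_zero fun a _ => ite_self 0
  rw [h1, h2, zero_add, add_zero]
  have h3 : ∀ a : Σ t, G t, (if P (Sum.inr (Sum.inl a)) then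
      uWires E g₀ (Sum.inr (Sum.inl j)) (Sum.inr (Sum.inl a)) else 0) =
      if (a = ⟨(j, false), g₀ (j, false)⟩ ∨ a = ⟨(j, true), g₀ (j, true)⟩) then
        (if P (Sum.inr (Sum.inl a)) then 1 else 0) else 0 := by
    rintro ⟨⟨j', b⟩, g⟩
    have h4 : uWires E g₀ (Sum.inr (Sum.inl j)) (Sum.inr (Sum.inl ⟨(j', b), g⟩)) =
        if ((⟨(j', b), g⟩ : Σ t, G t) = ⟨(j, false), g₀ (j, false)⟩ ∨
          (⟨(j', b), g⟩ : Σ t, G t) = ⟨(j, true), g₀ (j, true)⟩) then 1 else 0 := by
      rw [uWires_and]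
      refine if_congr ?_ rfl rfl
      constructor
      · rintro ⟨h5, hg⟩
        obtain rfl : j' = j := h5
        cases b
        · left
          exact congrArg (Sigma.mk (j', false)) hg
        · right
          exact congrArg (Sigma.mk (j', true)) hg
      · rintro (h | h)
        · obtain ⟨h5, h6⟩ := Sigma.mk.inj_iff.1 h
          obtain ⟨rfl, rfl⟩ := Prod.mk.injEq .. ▸ h5
          exact ⟨rfl, eq_of_heq h6⟩
        · obtain ⟨h5, h6⟩ := Sigma.mk.inj_iff.1 h
          obtain ⟨rfl, rfl⟩ := Prod.mk.injEq .. ▸ h5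
          exact ⟨rfl, eq_of_heq h6⟩
    rw [h4]
    by_cases h5 : P (Sum.inr (Sum.inl ⟨(j', b), g⟩))
    · rw [if_pos h5, if_pos h5]
    · rw [if_neg h5, if_neg h5, ite_self]
  rw [Finset.sum_congr rfl fun a _ => h3 a, ← Finset.sum_filter]
  have h6 : (univ.filter fun a : Σ t, G t => a = ⟨(j, false), g₀ (j, false)⟩ ∨
      a = ⟨(j, true), g₀ (j, true)⟩) =
      {⟨(j, false), g₀ (j, false)⟩, ⟨(j, true), g₀ (j, true)⟩} := by
    ext a
    simp
  rw [h6, Finset.sum_pair]
  intro h7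
  have h8 := (Sigma.mk.inj_iff.1 h7).1
  exact Bool.false_ne_true (congrArg Prod.snd h8)

/-- Sums over the wires entering the disjunction. -/
theorem sum_or (E : ∀ t, Circuit n (I t) (G t)) (g₀ : ∀ t, G t)
    (P : (Σ t, I t) ⊕ ((Σ t, G t) ⊕ (J ⊕ Unit)) → Prop) [DecidablePred P] :
    (∑ a, if P a then uWires E g₀ (Sum.inr (Sum.inr ())) a else 0) =
      ∑ j : J, if P (Sum.inr (Sum.inr (Sum.inl j))) then 1 else 0 := by
  classical
  rw [Fintype.sum_sum_type, Fintype.sum_sum_type, Fintype.sum_sum_type (α₁ := J)]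
  have h1 : (∑ a : Σ t, I t, if P (Sum.inl a) then
      uWires E g₀ (Sum.inr (Sum.inr ())) (Sum.inl a) else 0) = 0 :=
    Finset.sum_eq_zero fun a _ => ite_self 0
  have h2 : (∑ a : Σ t, G t, if P (Sum.inr (Sum.inl a)) then
      uWires E g₀ (Sum.inr (Sum.inr ())) (Sum.inr (Sum.inl a)) else 0) = 0 :=
    Finset.sum_eq_zero fun a _ => ite_self 0
  have h3 : (∑ a : Unit, if P (Sum.inr (Sum.inr (Sum.inr a))) then
      uWires E g₀ (Sum.inr (Sum.inr ())) (Sum.inr (Sum.inr (Sum.inr a))) else 0) = 0 :=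
    Finset.sum_eq_zero fun a _ => ite_self 0
  rw [h1, h2, h3, zero_add, add_zero, zero_add]
  rfl

theorem union_modular (E : ∀ t, Circuit n (I t) (G t)) (g₀ : ∀ t, G t) (L : ℕ)
    (hL : ∀ t g, (E t).level g < L) {m T : ℕ} (hT : 1 ≤ T) (h : ∀ t, (E t).Modular m T) :
    (union E g₀ L hL).Modular m T := by
  classical
  have hf : ∀ g, (union E g₀ L hL).fanIn g = ∑ a, if True then uWires E g₀ g a else 0 := by
    intro g
    simp only [if_true]
    rfl
  rintro (⟨t, g⟩ | j | u) c d hc hd h1 h2 h3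
  · have h4 : (union E g₀ L hL).fanIn (Sum.inl ⟨t, g⟩) = (E t).fanIn g := by
      rw [hf, sum_wires E g₀ t g (fun _ => True)]
      simp only [if_true]
      rfl
    rw [h4] at hc hd h3
    exact h t g c d hc hd h1 h2 h3
  · have h4 : (union E g₀ L hL).fanIn (Sum.inr (Sum.inl j)) = 2 := by
      rw [hf, sum_and E g₀ j (fun _ => True)]
      simp
    rw [h4] at hc hd h3
    show c = 2 ↔ d = 2
    omega
  · show 0 < c ↔ 0 < d
    omega

/-- The values of the gates. -/
theorem union_run (E : ∀ t, Circuit n (I t) (G t)) (g₀ : ∀ t, G t) (L : ℕ)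
    (hL : ∀ t g, (E t).level g < L) (x : Fin n → Bool) (v : ∀ t, G t → Bool)
    (hv : ∀ t, (E t).IsRun x (v t)) :
    ∃ V, (union E g₀ L hL).IsRun x V ∧ (V (Sum.inr (Sum.inr ())) = true ↔
      ∃ j, v (j, false) (g₀ (j, false)) = true ∧ v (j, true) (g₀ (j, true)) = true) := by
  classical
  let V : (Σ t, G t) ⊕ (J ⊕ Unit) → Bool := Sum.elim (fun g => v g.1 g.2)
    (Sum.elim (fun j => v (j, false) (g₀ (j, false)) && v (j, true) (g₀ (j, true)))
      (fun _ => decide (∃ j, v (j, false) (g₀ (j, false)) = true ∧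
        v (j, true) (g₀ (j, true)) = true)))
  have hc : ∀ g, (union E g₀ L hL).count x V g =
      ∑ a, if Sum.elim (fun i : Σ t, I t => Sum.elim x id ((E i.1).label i.2)) V a = true then
        uWires E g₀ g a else 0 := fun g => rfl
  refine ⟨V, ?_, ?_⟩
  · rintro (⟨t, g⟩ | j | u)
    · show v t g = true ↔ (E t).acc g ((union E g₀ L hL).count x V (Sum.inl ⟨t, g⟩))
      rw [hv t g, hc, sum_wires E g₀ t g]
      have : (∑ a : I t ⊕ G t, if Sum.elim (fun i : Σ t, I t => Sum.elim x id ((E i.1).label i.2)) V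
          (Sum.map (fun i => (⟨t, i⟩ : Σ t, I t))
            (fun g => (Sum.inl ⟨t, g⟩ : (Σ t, G t) ⊕ (J ⊕ Unit))) a) = true then
            (E t).wires g a else 0) = (E t).count x (v t) g := by
        unfold Circuit.count
        refine Finset.sum_congr rfl fun a _ => ?_
        rcases a with i | g'
        · rfl
        · rfl
      rw [this]
    · show (v (j, false) (g₀ (j, false)) && v (j, true) (g₀ (j, true))) = true ↔
        (union E g₀ L hL).count x V (Sum.inr (Sum.inl j)) = 2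
      rw [hc, sum_and E g₀ j]
      show _ ↔ (if v (j, false) (g₀ (j, false)) = true then 1 else 0) +
        (if v (j, true) (g₀ (j, true)) = true then 1 else 0) = 2
      rw [Bool.and_eq_true]
      by_cases h1 : v (j, false) (g₀ (j, false)) = true
      · by_cases h2 : v (j, true) (g₀ (j, true)) = true
        · simp [h1, h2]
        · simp [h1, h2]
      · by_cases h2 : v (j, true) (g₀ (j, true)) = true
        · simp [h1, h2]
        · simp [h1, h2]
    · show decide (∃ j, v (j, false) (g₀ (j, false)) = true ∧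
        v (j, true) (g₀ (j, true)) = true) = true ↔
        0 < (union E g₀ L hL).count x V (Sum.inr (Sum.inr ()))
      rw [hc, sum_or E g₀, decide_eq_true_eq]
      show _ ↔ 0 < ∑ j : J,
        if (v (j, false) (g₀ (j, false)) && v (j, true) (g₀ (j, true))) = true then 1 else 0
      rw [Finset.sum_boole, Nat.cast_id, Finset.card_pos]
      constructor
      · rintro ⟨j, hj⟩
        exact ⟨j, by rw [mem_filter]; exact ⟨mem_univ _, by rw [Bool.and_eq_true]; exact hj⟩⟩
      · rintro ⟨j, hj⟩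
        have := (mem_filter.1 hj).2
        rw [Bool.and_eq_true] at this
        exact ⟨j, this⟩
  · show decide _ = true ↔ _
    rw [decide_eq_true_eq]

end union

end Pool.Agent.SymBlk
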